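import Pool.Agent.U293.FC.Conv

/-!
# Automorphisms of `D[x, y]` over principal ideal domains, and of `A[x, y, z]` fixing `z`

`C` is any class of groups with the closure properties `ClosedE C` and `AcylF C` which contains the
solvable groups. All this is published for the class of the groups whose wreath products with finite
groups satisfy the K- and L-theoretic Farrell-Jones conjectures with coefficients (`AcylF` is a theorem
of Knopf, solvable groups are due to Wegner); this class also contains all `GL_n(ℚ)` (Rüping).

(1) For every principal ideal domain `D` of characteristic zero the group of all automorphisms of the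
`D`-algebra `D[x, y]` is in `C` if and only if `GL₂(D)` is in `C`.

(2) Let `F` be a field of characteristic zero with all `GL_n(F)` in `C`, for example `F = ℚ`, and let `A`
be any commutative `F`-algebra which is algebraic over `F`; nilpotent elements and zero divisors are
allowed. Then the group of all automorphisms of `A[x, y]` over `A` is in `C`, and so is the group of all
automorphisms of `A[x, y, z]` over `A[z]`, that is, of all `A`-automorphisms which fix `z`. The latter
group contains Nagata's automorphism, which is not tame as an automorphism in three variables.

Outline of the proof. Let `K` be the field of fractions of `D`. By Jung's theorem (starting library, over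
algebraically closed fields; `descent` gives all fields of characteristic zero) the automorphisms of
`K[x, y]` act on the tree of the cosets of the affine and of the triangular group. For a finitely
generated group `H` of automorphisms of `D[x, y]` the action is acylindrical. The stabilizers of the
vertices of triangular type are solvable. If `h` in `H` fixes the vertex `g·Aff`, then it acts on the
`K`-space `W` spanned by `g(x), g(y), 1` and on `D[x, y]`, so it acts on the lattice `(W ∩ D[x, y]) / D` of
rank two; since `D` is a principal ideal domain this gives a homomorphism to `GL₂(D)` with commutative
kernel. For `D = k[z]` the group `GL₂(k[z])` is in `C` by the euclidean algorithm and the action on the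
tree of Nagao's theorem. For (2), the automorphisms which are trivial modulo a nilpotent ideal form a
solvable group, and a finitely generated subalgebra `A₀` of `A` has finitely many minimal primes `p`, with
fields of fractions of `A₀/p` algebraic over `F`.
-/

set_option autoImplicit false

namespace Pool.Agent.Results.MP_b6f35e_al.AutomorphismsFixingACoordinate

open Pool.Agent.Y110.FJ (ClosedE)
open Pool.Agent.N509.TX (AcylF)

/-- the group of all automorphisms of the `R`-algebra `R[x, y]` -/
abbrev AutPlane (R : Type) [CommRing R] : Type :=
  MvPolynomial (Fin 2) R ≃ₐ[R] MvPolynomial (Fin 2) R

/-- Let `C` be a class of groups with the closure properties `ClosedE C` and `AcylF C` which contains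
the solvable groups. (1) For every principal ideal domain `D` of characteristic zero the group
`AutPlane D` is in `C` if and only if `GL₂(D)` is. (2) If `F` is a field of characteristic zero and all
`GL_n(F)` are in `C`, then `AutPlane A` and `AutPlane A[z]` are in `C` for every commutative `F`-algebra
`A` which is algebraic over `F`. -/
theorem result (C : ∀ (G : Type) [Group G], Prop) (hC : ClosedE C) (hA : AcylF C)
    (hS : ∀ (G : Type) [Group G], Group.IsSolvable G → C G) :
    (∀ (D : Type) [CommRing D] [IsDomain D] [IsPrincipalIdealRing D] [CharZero D],
      C (AutPlane D) ↔ C (Matrix.GeneralLinearGroup (Fin 2) D)) ∧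
    ∀ (F : Type) [Field F] [CharZero F], (∀ n : ℕ, C (Matrix.GeneralLinearGroup (Fin n) F)) →
      ∀ (A : Type) [CommRing A] [Algebra F A] [Algebra.IsAlgebraic F A],
        C (AutPlane A) ∧ C (AutPlane (Polynomial A)) := by
  refine ⟨fun D _ _ _ _ => ⟨fun h => ?_, fun h => ?_⟩, fun F _ _ hF A _ _ _ => ⟨?_, ?_⟩⟩
  · exact U293.FC.GL_of_An hC h
  · exact U293.FC.main_pid hC hA hS D h
  · exact U293.FC.main_alg' hC hA hS hF A
  · exact U293.FC.main_alg hC hA hS hF A

end Pool.Agent.Results.MP_b6f35e_al.AutomorphismsFixingACoordinate
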