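import Pool.Agent.U442.FJ.App

/-!
# Farrell–Jones groups: finite-valued functions on arbitrary sets

`C` is any class of groups with the closure properties `ClosedE C`, all of which are published for
the class of the groups that satisfy the Full Farrell–Jones Conjecture (with coefficients in additive
`G`-categories and finite wreath products).

(1) Let `N` be a normal subgroup of `G` with `G ⧸ N` in `C`, let `G` act on a set `X` of any size and
let `ν : N → A^X` be an injective homomorphism whose values are functions with finitely many values.
Assume that for `g` in `G` and every finite `E ⊆ N` the map `ν n x ↦ ν (g n g⁻¹) (g x)`, `n` in `E`, is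
induced by the conjugation with `b x` in a group `B` in `C` which contains `A`, where `b : X → B` has
finitely many values. Then `G` is in `C`.

(2) Let `B` be in `C`, let `φ : G → B ≀ Sym X` be a homomorphism such that every `φ g` has finitely many
different sections, and let `N` be a normal subgroup with `G ⧸ N` in `C` which acts trivially on `X` and
on which `φ` is injective. Then `G` is in `C`.

(3) Let `Γ` act on a set `X` and on a group `A` with `A ⋊ Γ` in `C`. Then the semidirect product of the
group of all functions `X → A` with finitely many values and `Γ` is in `C`.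

(4) Let `Γ` act on a compact space `X` by homeomorphisms and on a group `A` with `A ⋊ Γ` in `C`. Then the
semidirect product of the group of all locally constant functions `X → A` and `Γ` is in `C`.

Outline of the proof. By the realization criterion of the starting library one has to realize the
conjugation by `g` on finite `E ⊆ N` in a group in `C`. Label the points `x` of `X` by `b x` and
`(ν n x)`, `n` in `E`; there are finitely many labels. Replace the orbit of a point `x` under `g` by a
sequence `x_i`, `i ∈ ℤ`, with `x_0 = x` such that `x_i` and `g⁻¹ x_{i+1}` have the same label and which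
is eventually periodic at both ends. The restriction of `ν` to finitely many such sequences is injective
on `⟨E ∪ g E g⁻¹⟩` and `g` is realized there by `b` and the shift. This happens in a power of the group
`T m B` of the pairs of a sequence `ℤ → B` which is eventually periodic with period `m` at both ends and
a translation of `ℤ`. That `T m B` is in `C` follows from the same criterion for the normal subgroup of the
finitely supported sequences: the quotient embeds in the product of `ℤ` with a finite wreath product
and the conjugation by an element on a finite set is realized in `B ≀ Sym (ℤ / L)`, `L` large.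
-/

set_option autoImplicit false

namespace Pool.Agent.Results.MP_b6f35e_al.FiniteValuedWreath

open Pool.Agent.Y462.SS (Wr)
open Pool.Agent.Y110.FJ (ClosedE)
open Pool.Agent.U442.FJ

theorem result (C : ∀ (G : Type) [Group G], Prop) (hC : ClosedE C) :
    (∀ (G : Type) [Group G] (N : Subgroup G) [N.Normal], C (G ⧸ N) →
      ∀ (X A : Type) [MulAction G X] [Group A] (ν : N →* (X → A)), Function.Injective ν →
      (∀ n, (Set.range (ν n)).Finite) →
      (∀ (g : G) (E : Set N), E.Finite → ∃ (B : Type) (_ : Group B) (ι : A →* B) (b : X → B),
        C B ∧ Function.Injective ι ∧ (Set.range b).Finite ∧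
        ∀ n ∈ E, ∀ n' : N, (n' : G) = g * n * g⁻¹ → ∀ x : X,
          ι (ν n' (g • x)) = b x * ι (ν n x) * (b x)⁻¹) → C G) ∧
    (∀ (G : Type) [Group G] (N : Subgroup G) [N.Normal], C (G ⧸ N) →
      ∀ (X B : Type) [Group B], C B → ∀ φ : G →* Wr X B, (∀ g, (Set.range (φ g).s).Finite) →
      (∀ n ∈ N, (φ n).p = 1) → (∀ n ∈ N, φ n = 1 → n = 1) → C G) ∧
    (∀ (X A Γ : Type) [Group A] [Group Γ] [MulAction Γ X] (α : Γ →* MulAut A),
      C (A ⋊[α] Γ) → C (FinVal X A ⋊[finValAut X A Γ α] Γ)) ∧
    (∀ (X A Γ : Type) [TopologicalSpace X] [CompactSpace X] [Group A] [Group Γ] [MulAction Γ X]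
      [ContinuousConstSMul Γ X] (α : Γ →* MulAut A),
      C (A ⋊[α] Γ) → C (LocallyConstant X A ⋊[locConstAut X A Γ α] Γ)) :=
  ⟨fun G _ N _ hQ X A _ _ ν hν hfin h => t_fv C hC G N hQ X A ν hν hfin h,
    fun G _ N _ hQ X B _ hB φ hfin hN hinj => t_wreath C hC G N hQ X B hB φ hfin hN hinj,
    fun X A Γ _ _ _ α hA => t_finVal C hC X A Γ α hA,
    fun X A Γ _ _ _ _ _ _ α hA => t_locConst C hC X A Γ α hA⟩

end Pool.Agent.Results.MP_b6f35e_al.FiniteValuedWreath
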