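import Pool.Agent.U709.LvG

/-!
# Cyclic edge groups with a condition at one end

`C` is a class of groups with the closure properties `ClosedE C` (it contains `ℤ`, is closed under
subgroups, finite products, free products, overgroups of finite index and directed colimits, and a group
`G` with a homomorphism onto a group `Q` in `C` is in `C` if the preimages of the virtually cyclic
subgroups of `Q` are in `C`), which contains the solvable groups and satisfies `AcylF C` (finitely
generated groups with an acylindrical action on a tree with stabilizers in `C` are in `C`). All this is
known for the class of the groups whose wreath products with finite groups satisfy the K-theoretic and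
L-theoretic Farrell-Jones conjecture with coefficients (Bartels, Lück, Reich, Wegner, Knopf).

If a group `G` acts on a tree with cyclic edge stabilizers, the known results put conditions on the vertex
stabilizers at *both* ends of an edge. Here only one end of each edge has to satisfy a condition, and the
group at the other end is an arbitrary group in `C`.

A subgroup `E` of a group `M` is *centrally visible* in `M` if there is a homomorphism `f` on `M`,
injective on `E`, such that `f(E)` is central in `f(M)` and `f(M) / f(E)` embeds in a group in `C`
(`CenVis C E M`). We use this for the commensurator `M` of `E` in a vertex group, the group of the elements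
`g` such that `E ∩ g E g⁻¹` has finite index in `E` and in `g E g⁻¹`.

* (1) Let `G` act on a tree with vertex stabilizers in `C`, such that two edge stabilizers at a vertex are
  infinite and commensurable or have at most `n` common elements. (For example, let the infinite edge
  stabilizers be cyclic, and the finite ones of bounded order.) Let `l v a` be the level of the end `v`
  of the edge from `v` to `a`. The two ends of an edge have different levels, and commensurable edges at a
  vertex `v` have the same level; if `v` is the upper end of two commensurable edges, then the edges
  are in one orbit. If the infinite edge stabilizers are centrally visible in their commensurators in the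
  vertex stabilizers at the upper ends, then `G` is in `C`. There is no condition at the lower ends.
  For example, let `G` be the fundamental group of a tree of groups with cyclic edge groups, and `l v a`
  the distance of `v` from a root: then the vertex group at the root is an arbitrary group in `C`.
* (2) An amalgamated product `A *_E B` of groups in `C` over a cyclic group `E` is in `C` if `E` is
  centrally visible in its commensurator in `B`. `A` is an arbitrary group in `C`.
* (3) An HNN extension of a group `H` in `C` along an isomorphism `φ : A → B` of cyclic subgroups is in `C`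
  if no element of infinite order of `A` is conjugate to an element of `B`, and `B` is centrally visible
  in its commensurator in `H`. There is no condition on the centralizers of the elements of `A`.
* (4) If the groups `GL_m(ℚ)` are in `C` (Rüping), then in the principal congruence subgroup `K` of
  level `p ≥ 3` (prime) of `GL_n(ℤ)` all infinite cyclic subgroups are centrally visible in their
  commensurators. So `A *_E B` is in `C` for all `A` in `C`, all subgroups `B` of `K` and all cyclic groups
  `E`: for each group `A` which satisfies the Farrell-Jones conjecture (with coefficients and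
  finite wreath products), each element `a` of infinite order of `A` and each `b ≠ 1` in `B` the group
  `A *_{a = b} B` satisfies it as well.

Outline of the proof. One reduces to the stabilizer `K` of a cylinder (a class of edges with commensurable
infinite stabilizers), which acts on a tree with levels. Each vertex of this tree has at most one orbit of
lower neighbours. One cuts the tree at the vertices of maximal level: `K` acts on the tree of the
components and the vertices of maximal level, and the stabilizers of the components are in `C`
by induction. For this action one has the gluing lemma for homomorphisms on trees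
(`U709.Gl.hubs`): `K` maps to the free product of the groups `f(M) / f(E)`, and on the preimages of the
virtually cyclic subgroups one can glue homomorphisms to stabilizers of components, because `f(E)` is
central. For unbounded levels one uses directed unions. For (4): the elements `z` of infinite order in
`GL_n(ℤ)` are balanced (`g z^m g⁻¹ = z^n` implies `m = ±n`), roots are unique in congruence subgroups, and
`g z g⁻¹ = z⁻¹` would imply `(g z) ^ 2 = g ^ 2`; so the commensurator of `⟨z⟩` is the centralizer of `z`,
and its quotient by `⟨z⟩` embeds in a group in `C`.
-/

set_option autoImplicit false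

namespace Pool.Agent.Results.MP_b6f35e_al.OneSidedCyclicEdges

open Subgroup
open Subgroup.Commensurable (commensurator)
open Pool.Agent.Y110.FJ (ClosedE)
open Pool.Agent.N509.TX (AcylF)
open Pool.Agent.N431.CE (Es)
open Pool.Agent.Helper705_SA (IsAmalgam)
open Pool.Agent.U709.Vc (Inf)
open Pool.Agent.U709.Lv (CenVis)

theorem inf_iff {G : Type} [Group G] {z : G} : Inf z ↔ ¬ IsOfFinOrder z := by
  rw [isOfFinOrder_iff_pow_eq_one]
  constructor
  · rintro h ⟨m, hm, h1⟩
    exact h m hm.ne' h1
  · intro h m hm h1
    exact h ⟨m, Nat.pos_of_ne_zero hm, h1⟩

theorem result (C : ∀ (G : Type) [Group G], Prop) (hC : ClosedE C)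
    (hS : ∀ (G : Type) [Group G], Group.IsSolvable G → C G) (hA : AcylF C) :
    (∀ (G V : Type) [Group G] [MulAction G V] (T : SimpleGraph V), T.IsTree →
      (∀ (g : G) (u v : V), T.Adj u v → T.Adj (g • u) (g • v)) →
      (∀ v : V, C ↥(MulAction.stabilizer G v)) →
      ∀ n : ℕ, (∀ v a b, T.Adj v a → T.Adj v b → a ≠ b →
        (Infinite (Es G v a) ∧ Infinite (Es G v b) ∧
          Subgroup.Commensurable (Es G v a) (Es G v b)) ∨
        ∀ F : Finset G, (∀ g ∈ F, g ∈ Es G v a ∧ g ∈ Es G v b) → F.card ≤ n) →
      ∀ l : V → V → ℕ, (∀ (g : G) v a, T.Adj v a → l (g • v) (g • a) = l v a) →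
      (∀ v a, T.Adj v a → l v a ≠ l a v) →
      (∀ v a b, T.Adj v a → T.Adj v b → Infinite (Es G v a) → Infinite (Es G v b) →
        Subgroup.Commensurable (Es G v a) (Es G v b) → l v a = l v b ∧
          (l a v < l v a → l b v < l v b → ∃ g : G, g • v = v ∧ g • a = b)) →
      (∀ v a, T.Adj v a → l a v < l v a → Infinite (Es G v a) →
        CenVis C (Es G v a) (MulAction.stabilizer G v ⊓ commensurator (Es G v a))) → C G) ∧
    (∀ (G : Type) [Group G] (A B : Subgroup G), IsAmalgam A B → C A → C B →
      IsCyclic (A ⊓ B : Subgroup G) →
      (Infinite (A ⊓ B : Subgroup G) → CenVis C (A ⊓ B) (B ⊓ commensurator (A ⊓ B))) → C G) ∧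
    (∀ (H : Type) [Group H] (A B : Subgroup H) (φ : A ≃* B), C H → IsCyclic A →
      (∀ (a : A) (g : H), ¬ IsOfFinOrder (a : H) → g * (a : H) * g⁻¹ ∉ B) →
      (Infinite B → CenVis C B (commensurator B)) → C (HNNExtension H A B φ)) ∧
    ((∀ m : ℕ, C (Matrix.GeneralLinearGroup (Fin m) ℚ)) → ∀ p n : ℕ, p.Prime → 3 ≤ p →
      ∀ K : Subgroup (Matrix.GeneralLinearGroup (Fin n) ℤ),
        K = (Matrix.GeneralLinearGroup.map (n := Fin n) (Int.castRingHom (ZMod p))).ker →
        C K ∧ (∀ z : K, ¬ IsOfFinOrder z → CenVis C (zpowers z) (commensurator (zpowers z))) ∧
        ∀ (G : Type) [Group G] (A B : Subgroup G), IsAmalgam A B → C A →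
          IsCyclic (A ⊓ B : Subgroup G) → (∃ f : B →* K, Function.Injective f) → C G) := by
  refine ⟨fun G V _ _ T hT hact hV n hi l h1 h2 h3 hv => ?_,
    fun G _ A B h h1 h2 h3 h4 => Pool.Agent.U709.Lv.lev_amalgam hC hA A B h h1 h2 h3 h4,
    fun H _ A B φ h1 h2 h3 h4 => Pool.Agent.U709.Lv.lev_hnn hC hA A B φ h1 h2
      (fun a g ha => h3 a g (inf_iff.1 ha)) h4, fun hQ p n hp h3 K hK => ?_⟩
  · exact Pool.Agent.U709.Lv.lev_main hC hA hT hact hV n hi l h1 h2
      (fun v a b ha hb hia hib hc => (h3 v a b ha hb hia hib hc).1)
      (fun v a b ha hb hla hlb hia hib hc => (h3 v a b ha hb hia hib hc).2 hla hlb) hv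
  · subst hK
    have h := Pool.Agent.U709.Lv.cv_princ hC hS hQ hp h3 n
    refine ⟨h.1, fun z hz => h.2 z (inf_iff.2 hz), fun G _ A B hAB hcA hE hf => ?_⟩
    obtain ⟨f, hf⟩ := hf
    refine Pool.Agent.U709.Lv.lev_amalgam hC hA A B hAB hcA (hC.base.of_injective _ _ f hf h.1) hE
      fun hinf => ?_
    exact Pool.Agent.U709.Lv.cv_stab (h.2.of_injective f hf) inf_le_right hE hinf

end Pool.Agent.Results.MP_b6f35e_al.OneSidedCyclicEdges
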