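import Pool.Agent.U722.UG.Poly

/-!
# Unitary groups of Witt index one over polynomial rings

`C` is any class of groups with the closure properties `ClosedE C` which contains the solvable groups. All this is
published for the class of the groups whose wreath products with finite groups satisfy the K- and L-theoretic
Farrell-Jones conjecture with coefficients in additive categories (with involution): see Bartels, Farrell and Lück for
the inheritance properties and Wegner for the solvable groups; the groups `GL_n(ℚ)` are in it by Rüping. These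
groups satisfy Q1 and Q2.

Let `R` be a commutative ring with an involution `τ` and let `A` be a hermitian matrix over `R` (`τ(A i j) = A j i`), with
the hermitian form `h_A(w, w') = ∑ A i j τ(w_i) w'_j`. `U_A(R)` is the unitary group of the form
`τ(v_0) v'_1 + τ(v_1) v'_0 + h_A(w, w')`, the orthogonal sum of a hyperbolic plane and of `h_A`. If `h_A` is anisotropic
these are the hermitian forms of Witt index one. Examples are the groups `U_{n,1}` (`h_A` definite), such as the Picard
modular groups `U_{2,1}(ℤ[i])` and their analogues over `ℤ[i][x_1, ..., x_r]`, which act on complex hyperbolic spaces.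

It is open which groups of matrices are in the class. Known are, by Rüping, the groups `GL_n(ℚ)` (so all groups of
matrices over algebraic number fields) and `GL_n(F(t))`, `F` a finite field. For groups of matrices over fields of
positive transcendence degree over `ℚ`, or of degree at least two over a finite field, nothing general is known.

(1) *Graded rings.* Let `R = R_0 ⊕ R_1 ⊕ ...` be a graded commutative domain with an involution which preserves the
grading and let `h_A` be a hermitian form over `R_0` which is anisotropic over `R`. Then `U_A(R)` is in `C` if and only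
if `U_A(R_0)` is.

(2) *Polynomial rings.* Let `Q` be a commutative domain with an involution and let `h_A` be hermitian and anisotropic over
`Q`. Then `U_A(Q[x_i : i ∈ σ])` (the involution fixes the variables) is in `C` if and only if `U_A(Q)` is, for every set
`σ` of variables.

(3) *Rings of algebraic elements.* Let `k` be a field such that all `GL_n(k)` are in `C` and let `Q` be a ring with an
involution and with an embedding in an algebraic extension of `k`. Then `U_A(Q[x_i : i ∈ σ])` is in `C` for every
hermitian form `h_A` which is anisotropic over `Q`. For example (`k = ℚ`) the groups `U_{n,1}(ℤ[i][x_1, ..., x_r])` are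
in `C` if all `GL_n(ℚ)` are.

(4) If `K` is an algebraic extension of a finite prime field with an involution, then `U_A(K[x_i : i ∈ σ])` is in `C` for
every anisotropic hermitian `h_A` over `K`.

Outline of the proof. It suffices to consider subgroups of `U_A(Q[t])`. The degree of the polynomials gives a discrete valuation of the field `F` of fractions of `R`, which has
a uniformizer fixed by the involution, and `h_A` is anisotropic over the residue field. The unitary group over `F` acts on
a tree with two types of vertices, which in general are not equivalent under any automorphism of the group: the images of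
the lattice `L_0` of the integral vectors and those of the lattice `L_1` of the vectors with `π v_0`, `v_1`, `w` integral.
By the Iwasawa decomposition each vertex has a representative in the stabilizer `B` of an isotropic line; this gives it a
parent and a level. The decompositions of the stabilizers of `L_0` and `L_1` by the value of one matrix entry show that
the neighbours of a vertex are its parent and its children, and the unitary transvections show that any two vertices
have a common ancestor; so the graph is a tree. The elements of `Γ` which fix a given vertex have entries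
of bounded degree, so the congruence subgroup modulo a power of `t` acts without fixed point on the orbit
of the vertex, and the quotients of `Γ` by the congruence subgroups are nilpotent extensions of the image of
`Γ` in `U_A(Q)`, hence in `C`. Now the theorem of the starting library on groups which act on trees and have, for each
vertex, a homomorphism to a group in `C` which is injective on the stabilizer of the vertex applies. For (1), (2) one
embeds `R` in `R[t]` by `r ↦ r t ^ n` on `R_n`, for example `Q[x_i]` in `Q[x_i][t]` by `x_i ↦ x_i t`; that `h_A` stays anisotropic over `Q[x_i]` follows by comparing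
leading monomials.
-/

set_option autoImplicit false

namespace Pool.Agent.Results.MP_b6f35e_al.UnitaryGroups

open Matrix
open Pool.Agent.Y110.FJ (ClosedE)

/-- the sesquilinear form `h_A(w, w') = ∑ A i j τ(w_i) w'_j` -/
def form {R : Type} [CommRing R] {m : ℕ} (τ : R →+* R) (A : Matrix (Fin m) (Fin m) R)
    (w w' : Fin m → R) : R :=
  ∑ i, ∑ j, A i j * τ (w i) * w' j

/-- the form `τ(v_0) v'_1 + τ(v_1) v'_0 + h_A(w, w')` on `R ^ (2 + m)` -/
def hyp {R : Type} [CommRing R] {m : ℕ} (τ : R →+* R) (A : Matrix (Fin m) (Fin m) R)
    (v v' : Fin 2 ⊕ Fin m → R) : R :=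
  τ (v (Sum.inl 0)) * v' (Sum.inl 1) + τ (v (Sum.inl 1)) * v' (Sum.inl 0) +
    form τ A (fun i => v (Sum.inr i)) (fun i => v' (Sum.inr i))

/-- the invertible matrices of degree `2 + m` -/
def GLm (m : ℕ) (R : Type) [CommRing R] : Type := GL (Fin 2 ⊕ Fin m) R

instance (m : ℕ) (R : Type) [CommRing R] : Group (GLm m R) :=
  @Units.instGroup (Matrix (Fin 2 ⊕ Fin m) (Fin 2 ⊕ Fin m) R) _

/-- the matrix -/
def GLm.mat {m : ℕ} {R : Type} [CommRing R] (g : GLm m R) :
    Matrix (Fin 2 ⊕ Fin m) (Fin 2 ⊕ Fin m) R := Units.val (α := Matrix (Fin 2 ⊕ Fin m) _ R) g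

/-- the unitary group of the form `τ(v_0) v'_1 + τ(v_1) v'_0 + h_A(w, w')` -/
def UG {R : Type} [CommRing R] {m : ℕ} (τ : R →+* R) (A : Matrix (Fin m) (Fin m) R) :
    Subgroup (GLm m R) where
  carrier := {g | ∀ v v', hyp τ A (g.mat *ᵥ v) (g.mat *ᵥ v') = hyp τ A v v'}
  one_mem' := fun v v' => by
    change hyp τ A ((1 : Matrix (Fin 2 ⊕ Fin m) (Fin 2 ⊕ Fin m) R) *ᵥ v)
      ((1 : Matrix (Fin 2 ⊕ Fin m) (Fin 2 ⊕ Fin m) R) *ᵥ v') = _
    rw [Matrix.one_mulVec, Matrix.one_mulVec]
  mul_mem' := by
    intro g h hg hh v v'
    change hyp τ A ((g.mat * h.mat) *ᵥ v) ((g.mat * h.mat) *ᵥ v') = _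
    rw [← Matrix.mulVec_mulVec, ← Matrix.mulVec_mulVec, hg, hh]
  inv_mem' := by
    intro g hg v v'
    have h1 := hg (g⁻¹.mat *ᵥ v) (g⁻¹.mat *ᵥ v')
    have h2 : g.mat * g⁻¹.mat = 1 := Units.mul_inv (α := Matrix (Fin 2 ⊕ Fin m) _ R) g
    rw [Matrix.mulVec_mulVec, Matrix.mulVec_mulVec, h2, Matrix.one_mulVec, Matrix.one_mulVec] at h1
    exact h1.symm

/-- the unitary group `U_A(R)` of the form `τ(v_0) v'_1 + τ(v_1) v'_0 + h_A(w, w')`, as a group -/
def U {R : Type} [CommRing R] {m : ℕ} (τ : R →+* R) (A : Matrix (Fin m) (Fin m) R) : Type :=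
  ↥(UG τ A)

instance {R : Type} [CommRing R] {m : ℕ} (τ : R →+* R) (A : Matrix (Fin m) (Fin m) R) :
    Group (U τ A) :=
  (UG τ A).toGroup

/-- the form over the polynomial ring in the variables `σ` -/
noncomputable def overPoly (σ : Type) {R : Type} [CommRing R] {m : ℕ}
    (A : Matrix (Fin m) (Fin m) R) : Matrix (Fin m) (Fin m) (MvPolynomial σ R) :=
  A.map MvPolynomial.C

/-- the involution of the polynomial ring in the variables `σ` which fixes the variables -/
noncomputable def invPoly (σ : Type) {R : Type} [CommRing R] (τ : R →+* R) :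
    MvPolynomial σ R →+* MvPolynomial σ R :=
  MvPolynomial.map τ

/-- the subring of the elements of degree zero of a graded ring -/
def degZero {R : Type} [CommRing R] (𝒜 : ℕ → AddSubgroup R) [GradedRing 𝒜] : Subring R :=
  SetLike.GradeZero.subring 𝒜

/-- a form over a subring as a form over the ring -/
def overRing {R : Type} [CommRing R] (Z : Subring R) {m : ℕ} (A : Matrix (Fin m) (Fin m) Z) :
    Matrix (Fin m) (Fin m) R := A.map Subtype.val

/-- `τ` is an involution, `h_A` is hermitian and anisotropic -/
structure Hermitian {R : Type} [CommRing R] {m : ℕ} (τ : R →+* R) (A : Matrix (Fin m) (Fin m) R) :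
    Prop where
  inv : ∀ r, τ (τ r) = r
  herm : ∀ i j, τ (A i j) = A j i
  anis : ∀ w : Fin m → R, form τ A w w = 0 → w = 0

/-- (1) Graded domains. -/
def GradedDomains (C : ∀ (G : Type) [Group G], Prop) : Prop :=
  ∀ (R : Type) [CommRing R] [IsDomain R] (𝒜 : ℕ → AddSubgroup R) [GradedRing 𝒜] (τ : R →+* R),
    (∀ n, ∀ a ∈ 𝒜 n, τ a ∈ 𝒜 n) →
    ∀ τ₀ : degZero 𝒜 →+* degZero 𝒜, (∀ a, (τ₀ a : R) = τ a) →
    ∀ (m : ℕ) (A : Matrix (Fin m) (Fin m) (degZero 𝒜)), Hermitian τ (overRing (degZero 𝒜) A) →
    (C (U τ (overRing (degZero 𝒜) A)) ↔ C (U τ₀ A))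

/-- (2) Polynomial rings over domains. -/
def PolynomialRings (C : ∀ (G : Type) [Group G], Prop) : Prop :=
  ∀ (σ Q : Type) [CommRing Q] [IsDomain Q] (τ : Q →+* Q) (m : ℕ) (A : Matrix (Fin m) (Fin m) Q),
    Hermitian τ A → (C (U (invPoly σ τ) (overPoly σ A)) ↔ C (U τ A))

/-- (3) Polynomial rings over rings of algebraic elements. -/
def AlgebraicElements (C : ∀ (G : Type) [Group G], Prop) : Prop :=
  ∀ (k : Type) [Field k], (∀ n : ℕ, C (GL (Fin n) k)) →
    ∀ (K : Type) [Field K] [Algebra k K] [Algebra.IsAlgebraic k K] (Z : Type) [CommRing Z]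
      (ι : Z →+* K), Function.Injective ι → ∀ (σ : Type) (τ : Z →+* Z) (m : ℕ)
      (A : Matrix (Fin m) (Fin m) Z), Hermitian τ A → C (U (invPoly σ τ) (overPoly σ A))

/-- (4) Algebraic extensions of finite prime fields. -/
def FinitePrimeFields (C : ∀ (G : Type) [Group G], Prop) : Prop :=
  ∀ (p : ℕ) [Fact p.Prime] (K : Type) [Field K] [Algebra (ZMod p) K]
    [Algebra.IsAlgebraic (ZMod p) K] (σ : Type) (τ : K →+* K) (m : ℕ)
    (A : Matrix (Fin m) (Fin m) K), Hermitian τ A → C (U (invPoly σ τ) (overPoly σ A))

/-- Let `C` be a class of groups with the closure properties `ClosedE C` which contains the solvable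
groups. Then (1) - (4) above hold. -/
theorem result (C : ∀ (G : Type) [Group G], Prop) (hC : ClosedE C)
    (hS : ∀ (G : Type) [Group G], Group.IsSolvable G → C G) :
    GradedDomains C ∧ PolynomialRings C ∧ AlgebraicElements C ∧ FinitePrimeFields C :=
  ⟨fun R _ _ 𝒜 _ τ hτ τ₀ hτ₀ m A hA =>
      U722.UG.graded 𝒜 hC hS τ hτ τ₀ hτ₀ A ⟨hA.inv, hA.herm, hA.anis⟩,
    fun σ Q _ _ τ m A hA => U722.UG.mv hC hS σ Q ⟨hA.inv, hA.herm, hA.anis⟩,
    fun k _ hk K _ _ _ Z _ ι hι σ τ m A hA =>
      U722.UG.alg hC hS hk K σ Z ι hι ⟨hA.inv, hA.herm, hA.anis⟩,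
    fun p _ K _ _ _ σ τ m A hA => U722.UG.alg hC hS (k := ZMod p) (U709.fin_field hC (ZMod p)) K σ K
      (RingHom.id K) Function.injective_id ⟨hA.inv, hA.herm, hA.anis⟩⟩

end Pool.Agent.Results.MP_b6f35e_al.UnitaryGroups
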